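import Pool.Agent.N983.NC.Ens2
import Pool.Agent.N983.NC.Moment

/-!
The stochastic Galerkin (polynomial chaos) system of the three-dimensional Navier-Stokes equations:
for a suitable finite ensemble and a suitable space `W` of random variables, which contains the
constants, the Galerkin system has Leray's backward self-similar blow-up, and the statement (D)
holds for it.
-/

open Set
open scoped ContDiff

namespace Pool.Agent.N983.Shelf.GalerkinEnsembleBlowup

/-- The space `ℝ³`. -/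
abbrev Vec := Fin 3 → ℝ

/-- The partial derivative with respect to the `j`-th coordinate. -/
noncomputable def dx (j : Fin 3) (g : Vec → ℝ) (x : Vec) : ℝ := fderiv ℝ g x (Pi.single j 1)

/-- The velocity `v` is divergence-free at the time `t`. -/
def DivFree (v : ℝ → Vec → Vec) (t : ℝ) : Prop := ∀ x, ∑ i, dx i (fun y => v t y i) x = 0

/-- The `i`-th component of the Navier-Stokes residual
`∂ₜ v + (v·∇) v - ν Δ v + ∇ p - f` at the point `(t, x)`. -/
noncomputable def residual (ν : ℝ) (f v : ℝ → Vec → Vec) (p : ℝ → Vec → ℝ) (t : ℝ) (x : Vec)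
    (i : Fin 3) : ℝ :=
  deriv (fun s => v s x i) t + ∑ j, v t x j * dx j (fun y => v t y i) x
    - ν * ∑ j, dx j (dx j (fun y => v t y i)) x + dx i (p t) x - f t x i

/-- The Galerkin equations at the time `t`, for the ensemble `u ω`, `ω = 1, …, n`, with the
probabilities `m ω` and the space `W` of random variables: at every point, the residual is
orthogonal to `W` in `L²(m)`. -/
def Galerkin {n : ℕ} (m : Fin n → ℝ) (W : Submodule ℝ (Fin n → ℝ)) (ν : ℝ)
    (f u : Fin n → ℝ → Vec → Vec) (p : Fin n → ℝ → Vec → ℝ) (t : ℝ) : Prop :=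
  ∀ h ∈ W, ∀ x i, ∑ k, m k * h k * residual ν (f k) (u k) (p k) t x i = 0

/-- At the time `t`, the values of the ensemble `u`, as random variables, lie in `W`. -/
def ValuesIn {n : ℕ} (W : Submodule ℝ (Fin n → ℝ)) (u : Fin n → ℝ → Vec → Vec) (t : ℝ) : Prop :=
  ∀ x i, (fun k => u k t x i) ∈ W

/-- `g` is `1`-periodic in each coordinate. -/
def Periodic {E : Type} (g : Vec → E) : Prop := ∀ (i : Fin 3) (x : Vec), g (x + Pi.single i 1) = g x

/-- `(u, p)` is an admissible periodic solution of the Galerkin system with the force `f`, on the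
time interval `[0, ∞)`. -/
structure Admissible {n : ℕ} (m : Fin n → ℝ) (W : Submodule ℝ (Fin n → ℝ)) (ν : ℝ)
    (f u : Fin n → ℝ → Vec → Vec) (p : Fin n → ℝ → Vec → ℝ) : Prop where
  smooth_u : ∀ k, ContDiffOn ℝ ∞ (fun z : ℝ × Vec => u k z.1 z.2) (Ici 0 ×ˢ univ)
  smooth_p : ∀ k, ContDiffOn ℝ ∞ (fun z : ℝ × Vec => p k z.1 z.2) (Ici 0 ×ˢ univ)
  per_u : ∀ k t, 0 ≤ t → Periodic (u k t)
  per_p : ∀ k t, 0 ≤ t → Periodic (p k t)
  values : ∀ t, 0 ≤ t → ValuesIn W u t
  divfree : ∀ k t, 0 ≤ t → DivFree (u k) t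
  galerkin : ∀ t, 0 < t → Galerkin m W ν f u p t

/-- There are a finite probability space `{1, …, n}` with the probabilities `m k > 0` and a space
`W` of random variables, of dimension `33` and containing the constants, such that for every
`ν > 0`:
* the Galerkin system without force has a nonzero smooth solution
  `u(t, x) = (1 - t)^{-1/2} U(x / √(1 - t))` on `(-∞, 1) × ℝ³`, with `|U(y)| ≤ C / (1 + |y|)`;
* there is a smooth periodic force with values in `W`, vanishing for `t ≤ 0` and for `t ≥ 2`, for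
  which the Galerkin system has no admissible periodic solution with zero initial values. -/
theorem result :
    ∃ (n : ℕ) (m : Fin n → ℝ) (W : Submodule ℝ (Fin n → ℝ)),
      (∀ k, 0 < m k) ∧ ∑ k, m k = 1 ∧ (fun _ => 1) ∈ W ∧ Module.finrank ℝ W = 33 ∧
      ∀ ν : ℝ, 0 < ν →
        (∃ (U : Fin n → Vec → Vec) (P : Fin n → Vec → ℝ),
          (∀ k, ContDiff ℝ ∞ (U k)) ∧ (∀ k, ContDiff ℝ ∞ (P k)) ∧ (∃ k, U k ≠ 0) ∧
          (∃ C : ℝ, ∀ k y, ‖U k y‖ ≤ C / (1 + ‖y‖)) ∧ (∀ y, (fun k => P k y) ∈ W) ∧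
          ∀ t < 1,
            ValuesIn W (fun k t x => (Real.sqrt (1 - t))⁻¹ • U k ((Real.sqrt (1 - t))⁻¹ • x)) t ∧
            (∀ k, DivFree (fun t x => (Real.sqrt (1 - t))⁻¹ • U k ((Real.sqrt (1 - t))⁻¹ • x)) t) ∧
            Galerkin m W ν (fun _ _ _ => 0)
              (fun k t x => (Real.sqrt (1 - t))⁻¹ • U k ((Real.sqrt (1 - t))⁻¹ • x))
              (fun k t x => (1 - t)⁻¹ * P k ((Real.sqrt (1 - t))⁻¹ • x)) t) ∧
        (∃ f : Fin n → ℝ → Vec → Vec,
          (∀ k, ContDiff ℝ ∞ (fun z : ℝ × Vec => f k z.1 z.2)) ∧ (∀ k t, Periodic (f k t)) ∧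
          (∀ t, ValuesIn W f t) ∧ (∀ k t, t ≤ 0 → f k t = 0) ∧ (∀ k t, 2 ≤ t → f k t = 0) ∧
          ¬ ∃ u p, Admissible m W ν f u p ∧ ∀ k, u k 0 = 0) := by
  obtain ⟨c, hc, hc0, hmain⟩ := Pool.Agent.N983.NC.main
  obtain ⟨n, m, φ, hm, hm1, hφ0, hort, hc3⟩ :=
    Pool.Agent.N983.NC.moment_rep (0 : Fin 33) ⟨1, by decide⟩ c hc hc0
  refine ⟨n, m, Submodule.span ℝ (Set.range φ), hm, hm1, ?_, ?_, fun ν hν => ?_⟩
  · refine Submodule.subset_span ⟨0, ?_⟩
    funext k
    exact hφ0 k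
  · rw [finrank_span_eq_card (Pool.Agent.N983.NC.linind hort)]
    simp
  · obtain ⟨h1, h2⟩ := hmain ν hν
    obtain ⟨⟨U, P, hU, hP, hU0, hC, hUW, hPW, hsol⟩, f, hf, hfper, hf0, hf2, hfW, hno⟩ :=
      Pool.Agent.N983.NC.ens_main h1 h2 hort hc3
    refine ⟨⟨U, P, hU, hP, hU0, hC, hPW, fun t ht => ⟨?_, fun k x => (hsol t ht).1 k x,
      fun h hh x i => (hsol t ht).2.orth h hh x i⟩⟩, f, hf, hfper, fun t x i => hfW t x i,
      hf0, hf2, ?_⟩
    · intro x i
      have := (Submodule.span ℝ (Set.range φ)).smul_mem ((Real.sqrt (1 - t))⁻¹)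
        (hUW ((Real.sqrt (1 - t))⁻¹ • x) i)
      exact this
    · rintro ⟨u, p, hup, hu0⟩
      exact hno ⟨u, p, hup.smooth_u, hup.smooth_p, hup.per_u, hup.per_p,
        fun t ht x i => hup.values t ht x i, fun k t ht x => hup.divfree k t ht x,
        fun t ht => ⟨fun h hh x i => hup.galerkin t ht h hh x i⟩, hu0⟩

end Pool.Agent.N983.Shelf.GalerkinEnsembleBlowup
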